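import Mathlib

set_option autoImplicit false

/-!
Coarse geometry with `ℕ`-valued pseudo-metrics: quasi-isometry as an equivalence relation,
products, subsets, and groups with a bi-invariant norm.
-/

namespace Pool.Agent.Helper78_FG

/-- A pseudo-metric with values in `ℕ`. -/
structure PM (X : Type) where
  d : X → X → ℕ
  self : ∀ x, d x x = 0
  symm : ∀ x y, d x y = d y x
  tri : ∀ x y z, d x z ≤ d x y + d y z

/-- The `ℓ¹`-product. -/
def PM.prod {X Y : Type} (A : PM X) (B : PM Y) : PM (X × Y) where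
  d p q := A.d p.1 q.1 + B.d p.2 q.2
  self p := by simp [A.self, B.self]
  symm p q := by rw [A.symm, B.symm]
  tri p q r := by
    have h1 := A.tri p.1 q.1 r.1
    have h2 := B.tri p.2 q.2 r.2
    omega

/-- The restriction to a subset. -/
def PM.sub {X : Type} (A : PM X) (s : Set X) : PM s where
  d p q := A.d p.1 q.1
  self p := A.self _
  symm p q := A.symm _ _
  tri p q r := A.tri _ _ _

/-- Quasi-isometry, in the form of a pair of coarsely inverse coarsely Lipschitz maps. -/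
def QE {X Y : Type} (A : PM X) (B : PM Y) : Prop :=
  ∃ (f : X → Y) (g : Y → X) (L : ℕ),
    (∀ x x', B.d (f x) (f x') ≤ L * A.d x x' + L) ∧
    (∀ y y', A.d (g y) (g y') ≤ L * B.d y y' + L) ∧
    (∀ x, A.d (g (f x)) x ≤ L) ∧ (∀ y, B.d (f (g y)) y ≤ L)

theorem QE.refl {X : Type} (A : PM X) : QE A A :=
  ⟨id, id, 1, fun x x' => by simp, fun x x' => by simp,
    fun x => by simp [A.self], fun x => by simp [A.self]⟩

theorem QE.symm {X Y : Type} {A : PM X} {B : PM Y} (h : QE A B) : QE B A := by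
  obtain ⟨f, g, L, h1, h2, h3, h4⟩ := h
  exact ⟨g, f, L, h2, h1, h4, h3⟩

theorem QE.trans {X Y Z : Type} {A : PM X} {B : PM Y} {C : PM Z}
    (h : QE A B) (h' : QE B C) : QE A C := by
  obtain ⟨f, g, L, h1, h2, h3, h4⟩ := h
  obtain ⟨f', g', L', h1', h2', h3', h4'⟩ := h'
  refine ⟨fun x => f' (f x), fun z => g (g' z), L * L' + 2 * L + 2 * L', ?_, ?_, ?_, ?_⟩
  · intro x x'
    have e1 := h1 x x'
    have e2 := h1' (f x) (f x')
    have e3 : L' * B.d (f x) (f x') ≤ L' * (L * A.d x x' + L) := Nat.mul_le_mul_left _ e1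
    nlinarith [Nat.zero_le (L * A.d x x'), Nat.zero_le (L' * A.d x x'), Nat.zero_le L,
      Nat.zero_le L']
  · intro x x'
    have e1 := h2' x x'
    have e2 := h2 (g' x) (g' x')
    have e3 : L * B.d (g' x) (g' x') ≤ L * (L' * C.d x x' + L') := Nat.mul_le_mul_left _ e1
    nlinarith [Nat.zero_le (L * C.d x x'), Nat.zero_le (L' * C.d x x'), Nat.zero_le L,
      Nat.zero_le L']
  · intro x
    have e1 := A.tri (g (g' (f' (f x)))) (g (f x)) x
    have e2 := h3 x
    have e3 := h2 (g' (f' (f x))) (f x)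
    have e4 := h3' (f x)
    have e5 : L * B.d (g' (f' (f x))) (f x) ≤ L * L' := Nat.mul_le_mul_left _ e4
    show A.d (g (g' (f' (f x)))) x ≤ _
    omega
  · intro z
    have e1 := C.tri (f' (f (g (g' z)))) (f' (g' z)) z
    have e2 := h4' z
    have e3 := h1' (f (g (g' z))) (g' z)
    have e4 := h4 (g' z)
    have e5 : L' * B.d (f (g (g' z))) (g' z) ≤ L' * L := Nat.mul_le_mul_left _ e4
    have e6 : L' * L = L * L' := Nat.mul_comm _ _
    show C.d (f' (f (g (g' z)))) z ≤ _
    omega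

theorem QE.prod {X Y X' Y' : Type} {A : PM X} {B : PM Y} {A' : PM X'} {B' : PM Y'}
    (h : QE A B) (h' : QE A' B') : QE (A.prod A') (B.prod B') := by
  obtain ⟨f, g, L, h1, h2, h3, h4⟩ := h
  obtain ⟨f', g', L', h1', h2', h3', h4'⟩ := h'
  refine ⟨fun p => (f p.1, f' p.2), fun p => (g p.1, g' p.2), L + L', ?_, ?_, ?_, ?_⟩
  · intro p q
    have e1 := h1 p.1 q.1
    have e2 := h1' p.2 q.2
    simp only [PM.prod]
    nlinarith [Nat.zero_le (L * A'.d p.2 q.2), Nat.zero_le (L' * A.d p.1 q.1)]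
  · intro p q
    have e1 := h2 p.1 q.1
    have e2 := h2' p.2 q.2
    simp only [PM.prod]
    nlinarith [Nat.zero_le (L * B'.d p.2 q.2), Nat.zero_le (L' * B.d p.1 q.1)]
  · intro p
    have e1 := h3 p.1
    have e2 := h3' p.2
    simp only [PM.prod]
    omega
  · intro p
    have e1 := h4 p.1
    have e2 := h4' p.2
    simp only [PM.prod]
    omega

/-- An isometric bijection is a quasi-isometry. -/
theorem QE.of_iso {X Y : Type} {A : PM X} {B : PM Y} (e : X ≃ Y)
    (h : ∀ x x', B.d (e x) (e x') = A.d x x') : QE A B := by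
  refine ⟨e, e.symm, 1, ?_, ?_, ?_, ?_⟩
  · intro x x'
    rw [h]; omega
  · intro y y'
    have := h (e.symm y) (e.symm y')
    simp only [Equiv.apply_symm_apply] at this
    omega
  · intro x
    simp [A.self]
  · intro y
    simp [B.self]

theorem QE.prod_comm {X Y : Type} (A : PM X) (B : PM Y) : QE (A.prod B) (B.prod A) :=
  QE.of_iso (Equiv.prodComm X Y) (fun p q => by
    simp only [PM.prod, Equiv.prodComm_apply, Prod.fst_swap, Prod.snd_swap]
    omega)

theorem QE.prod_assoc {X Y Z : Type} (A : PM X) (B : PM Y) (C : PM Z) :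
    QE ((A.prod B).prod C) (A.prod (B.prod C)) :=
  QE.of_iso (Equiv.prodAssoc X Y Z) (fun p q => by
    simp only [PM.prod, Equiv.prodAssoc_apply]
    omega)

/-- A group norm which is conjugation invariant, with values in `ℕ`. -/
structure BI (G : Type) [Group G] where
  N : G → ℕ
  one : N 1 = 0
  mul_le : ∀ g h, N (g * h) ≤ N g + N h
  inv : ∀ g, N g⁻¹ = N g
  conj : ∀ g h, N (h * g * h⁻¹) = N g

section BI

variable {G : Type} [Group G] (B : BI G)

/-- The bi-invariant metric of a conjugation invariant norm. -/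
def BI.pm : PM G where
  d u v := B.N (u⁻¹ * v)
  self u := by simp [B.one]
  symm u v := by rw [← B.inv]; simp
  tri u v w := by
    have := B.mul_le (u⁻¹ * v) (v⁻¹ * w)
    have e : u⁻¹ * v * (v⁻¹ * w) = u⁻¹ * w := by group
    rw [e] at this
    exact this

theorem BI.d_def (u v : G) : B.pm.d u v = B.N (u⁻¹ * v) := rfl

theorem BI.d_mul_le (u v u' v' : G) :
    B.pm.d (u * v) (u' * v') ≤ B.pm.d u u' + B.pm.d v v' := by
  simp only [B.d_def]
  have e : (u * v)⁻¹ * (u' * v') = (v⁻¹ * (u⁻¹ * u') * (v⁻¹)⁻¹) * (v⁻¹ * v') := by group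
  rw [e]
  refine (B.mul_le _ _).trans ?_
  rw [B.conj]

theorem BI.d_mul_left (w u v : G) : B.pm.d (w * u) (w * v) = B.pm.d u v := by
  simp only [B.d_def]
  congr 1
  group

theorem BI.d_mul_right (w u v : G) : B.pm.d (u * w) (v * w) = B.pm.d u v := by
  simp only [B.d_def]
  have e : (u * w)⁻¹ * (v * w) = w⁻¹ * (u⁻¹ * v) * (w⁻¹)⁻¹ := by group
  rw [e, B.conj]

theorem BI.d_inv (u v : G) : B.pm.d u⁻¹ v⁻¹ = B.pm.d u v := by
  simp only [B.d_def]
  have e : (u⁻¹)⁻¹ * v⁻¹ = u * (u⁻¹ * v)⁻¹ * u⁻¹ := by group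
  rw [e, B.conj, B.inv]

theorem BI.d_one_left (u : G) : B.pm.d 1 u = B.N u := by
  simp [B.d_def]

theorem BI.d_one_right (u : G) : B.pm.d u 1 = B.N u := by
  simp [B.d_def, B.inv]

end BI

/-- Splitting lemma: a homomorphism `ψ : H → G` (Lipschitz) with a coarse left inverse `r` which is a
coarsely Lipschitz quasi-homomorphism exhibits `G` as quasi-isometric to `H × B`. -/
theorem split_lemma {G H : Type} [Group G] [Group H] (N : BI G) (M : BI H) (c : ℕ)
    (ψ : H →* G) (r : G → H)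
    (hψ : ∀ h, N.N (ψ h) ≤ c * M.N h)
    (hr : ∀ g g', M.pm.d (r g) (r g') ≤ c * N.pm.d g g' + c)
    (hq : ∀ g g', M.pm.d (r (g * g')) (r g * r g') ≤ c)
    (hs : ∀ h, r (ψ h) = h) :
    ∃ s : Set G, QE N.pm (M.pm.prod (N.pm.sub s)) := by
  have key : ∀ g, M.N (r (g * (ψ (r g))⁻¹)) ≤ c := by
    intro g
    have h1 := hq g (ψ (r g))⁻¹
    have h2 : r ((ψ (r g))⁻¹) = (r g)⁻¹ := by
      rw [← map_inv, hs]
    rw [h2, mul_inv_cancel, M.d_one_right] at h1
    exact h1
  have hψd : ∀ h h', N.pm.d (ψ h) (ψ h') ≤ c * M.pm.d h h' := by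
    intro h h'
    simp only [BI.d_def]
    rw [← map_inv, ← map_mul]
    exact hψ _
  refine ⟨{g | M.N (r g) ≤ c}, fun g => (r g, ⟨g * (ψ (r g))⁻¹, key g⟩),
    fun p => p.2.1 * ψ p.1, 2 * c * c + 2 * c + 1, ?_, ?_, ?_, ?_⟩
  · intro g g'
    simp only [PM.prod, PM.sub]
    have h1 := hr g g'
    have h2 := N.d_mul_le g (ψ (r g))⁻¹ g' (ψ (r g'))⁻¹
    rw [N.d_inv] at h2
    have h3 := hψd (r g) (r g')
    have h4 : c * M.pm.d (r g) (r g') ≤ c * (c * N.pm.d g g' + c) := Nat.mul_le_mul_left _ h1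
    nlinarith [Nat.zero_le (c * c * N.pm.d g g'), Nat.zero_le (c * N.pm.d g g')]
  · intro p q
    simp only [PM.prod, PM.sub]
    have h2 := N.d_mul_le p.2.1 (ψ p.1) q.2.1 (ψ q.1)
    have h3 := hψd p.1 q.1
    nlinarith [Nat.zero_le (c * c * M.pm.d p.1 q.1), Nat.zero_le (c * M.pm.d p.1 q.1),
      Nat.zero_le (c * c * N.pm.d p.2.1 q.2.1), Nat.zero_le (c * N.pm.d p.2.1 q.2.1)]
  · intro g
    have : g * (ψ (r g))⁻¹ * ψ (r g) = g := by group
    simp only [this, N.pm.self]
    omega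
  · rintro ⟨h, ⟨y, hy⟩⟩
    simp only [PM.prod, PM.sub]
    have hy' : M.N (r y) ≤ c := hy
    have h1 : M.pm.d (r (y * ψ h)) h ≤ 2 * c := by
      have e1 := hq y (ψ h)
      rw [hs] at e1
      have e2 := M.pm.tri (r (y * ψ h)) (r y * h) h
      have e3 : M.pm.d (r y * h) h = M.N (r y) := by
        have := M.d_mul_right h (r y) 1
        rw [one_mul] at this
        rw [this, M.d_one_right]
      omega
    have h2 : N.pm.d (y * ψ h * (ψ (r (y * ψ h)))⁻¹) y ≤ 2 * c * c := by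
      have e0 : N.pm.d (y * ψ h * (ψ (r (y * ψ h)))⁻¹) y
          = N.pm.d (ψ (h * (r (y * ψ h))⁻¹)) 1 := by
        have := N.d_mul_left y (ψ (h * (r (y * ψ h))⁻¹)) 1
        rw [mul_one] at this
        rw [← this]
        congr 1
        rw [map_mul, map_inv]
        group
      rw [e0, N.d_one_right]
      have e1 := hψ (h * (r (y * ψ h))⁻¹)
      have e2 : M.N (h * (r (y * ψ h))⁻¹) = M.pm.d (r (y * ψ h)) h := by
        have := M.d_mul_right (r (y * ψ h))⁻¹ (r (y * ψ h)) h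
        rw [mul_inv_cancel, M.d_one_left] at this
        exact this
      rw [e2] at e1
      have e3 : c * M.pm.d (r (y * ψ h)) h ≤ c * (2 * c) := Nat.mul_le_mul_left _ h1
      nlinarith
    omega

end Pool.Agent.Helper78_FG
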