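import Mathlib
import Pool.Agent.Helper78_FG.Coarse

set_option autoImplicit false

/-!
The conjugation invariant word norm of a free group and its basic properties.
-/

namespace Pool.Agent.Helper78_FG

variable {α β : Type}

/-- `x` is a conjugate of a free generator or of the inverse of a free generator. -/
def IsGen (x : FreeGroup α) : Prop :=
  ∃ (i : α) (h : FreeGroup α), x = h * FreeGroup.of i * h⁻¹ ∨ x = h * (FreeGroup.of i)⁻¹ * h⁻¹

/-- The conjugation invariant word norm. -/
noncomputable def nrm (g : FreeGroup α) : ℕ :=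
  sInf {n : ℕ | ∃ l : List (FreeGroup α), l.length = n ∧ (∀ x ∈ l, IsGen x) ∧ l.prod = g}

theorem IsGen.of (i : α) : IsGen (FreeGroup.of i) := ⟨i, 1, Or.inl (by simp)⟩

theorem IsGen.of_inv (i : α) : IsGen (FreeGroup.of i)⁻¹ := ⟨i, 1, Or.inr (by simp)⟩

theorem IsGen.inv {x : FreeGroup α} (hx : IsGen x) : IsGen x⁻¹ := by
  obtain ⟨i, h, hx | hx⟩ := hx
  · exact ⟨i, h, Or.inr (by rw [hx]; group)⟩
  · exact ⟨i, h, Or.inl (by rw [hx]; group)⟩

theorem IsGen.conj {x : FreeGroup α} (hx : IsGen x) (g : FreeGroup α) : IsGen (g * x * g⁻¹) := by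
  obtain ⟨i, h, hx | hx⟩ := hx
  · exact ⟨i, g * h, Or.inl (by rw [hx]; group)⟩
  · exact ⟨i, g * h, Or.inr (by rw [hx]; group)⟩

theorem exists_list (g : FreeGroup α) :
    ∃ l : List (FreeGroup α), (∀ x ∈ l, IsGen x) ∧ l.prod = g := by
  induction g using FreeGroup.induction_on with
  | C1 => exact ⟨[], by simp, rfl⟩
  | of i => exact ⟨[FreeGroup.of i], by simpa using IsGen.of i, by simp⟩
  | inv_of i _ => exact ⟨[(FreeGroup.of i)⁻¹], by simpa using IsGen.of_inv i, by simp⟩
  | mul x y hx hy =>
    obtain ⟨l, hl, rfl⟩ := hx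
    obtain ⟨l', hl', rfl⟩ := hy
    refine ⟨l ++ l', ?_, by simp⟩
    intro x hx
    rcases List.mem_append.1 hx with h | h
    · exact hl x h
    · exact hl' x h

theorem exists_min_list (g : FreeGroup α) :
    ∃ l : List (FreeGroup α), l.length = nrm g ∧ (∀ x ∈ l, IsGen x) ∧ l.prod = g := by
  have hne : {n : ℕ | ∃ l : List (FreeGroup α), l.length = n ∧ (∀ x ∈ l, IsGen x) ∧
      l.prod = g}.Nonempty := by
    obtain ⟨l, hl, hg⟩ := exists_list g
    exact ⟨l.length, l, rfl, hl, hg⟩
  exact Nat.sInf_mem hne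

theorem nrm_le_of_list (l : List (FreeGroup α)) (hl : ∀ x ∈ l, IsGen x) :
    nrm l.prod ≤ l.length :=
  Nat.sInf_le ⟨l, rfl, hl, rfl⟩

theorem nrm_one : nrm (1 : FreeGroup α) = 0 := by
  have := nrm_le_of_list ([] : List (FreeGroup α)) (by simp)
  simpa using this

theorem nrm_mul_le (g h : FreeGroup α) : nrm (g * h) ≤ nrm g + nrm h := by
  obtain ⟨l, hl, hl1, hl2⟩ := exists_min_list g
  obtain ⟨l', hl', hl1', hl2'⟩ := exists_min_list h
  have := nrm_le_of_list (l ++ l') (by
    intro x hx
    rcases List.mem_append.1 hx with h | h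
    · exact hl1 x h
    · exact hl1' x h)
  rw [List.prod_append, hl2, hl2', List.length_append, hl, hl'] at this
  exact this

theorem nrm_inv_le (g : FreeGroup α) : nrm g⁻¹ ≤ nrm g := by
  obtain ⟨l, hl, hl1, hl2⟩ := exists_min_list g
  have := nrm_le_of_list (l.map (fun x => x⁻¹)).reverse (by
    intro x hx
    rw [List.mem_reverse, List.mem_map] at hx
    obtain ⟨y, hy, rfl⟩ := hx
    exact (hl1 y hy).inv)
  rw [← List.prod_inv_reverse, hl2, List.length_reverse, List.length_map, hl] at this
  exact this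

theorem nrm_inv (g : FreeGroup α) : nrm g⁻¹ = nrm g := by
  apply le_antisymm (nrm_inv_le g)
  have := nrm_inv_le g⁻¹
  rwa [inv_inv] at this

theorem prod_map_conj (h : FreeGroup α) (l : List (FreeGroup α)) :
    (l.map (fun x => h * x * h⁻¹)).prod = h * l.prod * h⁻¹ := by
  induction l with
  | nil => simp
  | cons x l ih => rw [List.map_cons, List.prod_cons, List.prod_cons, ih]; group

theorem nrm_conj_le (g h : FreeGroup α) : nrm (h * g * h⁻¹) ≤ nrm g := by
  obtain ⟨l, hl, hl1, hl2⟩ := exists_min_list g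
  have := nrm_le_of_list (l.map (fun x => h * x * h⁻¹)) (by
    intro x hx
    rw [List.mem_map] at hx
    obtain ⟨y, hy, rfl⟩ := hx
    exact (hl1 y hy).conj h)
  rw [prod_map_conj, hl2, List.length_map, hl] at this
  exact this

theorem nrm_conj (g h : FreeGroup α) : nrm (h * g * h⁻¹) = nrm g := by
  apply le_antisymm (nrm_conj_le g h)
  have := nrm_conj_le (h * g * h⁻¹) h⁻¹
  have e : h⁻¹ * (h * g * h⁻¹) * (h⁻¹)⁻¹ = g := by group
  rwa [e] at this

theorem nrm_gen_le {x : FreeGroup α} (hx : IsGen x) : nrm x ≤ 1 := by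
  have := nrm_le_of_list [x] (by simpa using hx)
  simpa using this

theorem nrm_of_le (i : α) : nrm (FreeGroup.of i) ≤ 1 := nrm_gen_le (IsGen.of i)

/-- The bi-invariant norm structure. -/
noncomputable def FG (α : Type) : BI (FreeGroup α) where
  N := nrm
  one := nrm_one
  mul_le := nrm_mul_le
  inv := nrm_inv
  conj := nrm_conj

/-- The norm is the largest subadditive function that is at most `1` on generators. -/
theorem le_mul_nrm (F : FreeGroup α → ℕ) (L : ℕ) (h1 : F 1 = 0)
    (hmul : ∀ x y, F (x * y) ≤ F x + F y) (hgen : ∀ x, IsGen x → F x ≤ L) (g : FreeGroup α) :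
    F g ≤ L * nrm g := by
  obtain ⟨l, hl, hl1, hl2⟩ := exists_min_list g
  rw [← hl, ← hl2]
  clear hl hl2
  induction l with
  | nil => simp [h1]
  | cons x l ih =>
    rw [List.prod_cons, List.length_cons]
    have e1 := hmul x l.prod
    have e2 := hgen x (hl1 x (by simp))
    have e3 := ih (fun y hy => hl1 y (by simp [hy]))
    rw [Nat.mul_add]
    omega

/-- A homomorphism into a group with conjugation invariant norm which is bounded on the free
generators is Lipschitz. -/
theorem hom_lipschitz {G : Type} [Group G] (B : BI G) (φ : FreeGroup α →* G) (L : ℕ)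
    (hL : ∀ i, B.N (φ (FreeGroup.of i)) ≤ L) (g : FreeGroup α) : B.N (φ g) ≤ L * nrm g := by
  apply le_mul_nrm (fun g => B.N (φ g)) L
  · simp [B.one]
  · intro x y
    simp only [map_mul]
    exact B.mul_le _ _
  · intro x hx
    obtain ⟨i, h, hx | hx⟩ := hx
    · rw [hx]
      simp only [map_mul, map_inv]
      rw [B.conj]
      exact hL i
    · rw [hx]
      simp only [map_mul, map_inv]
      rw [B.conj, B.inv]
      exact hL i

/-- A map which moves neighbours by at most `L` is `L`-Lipschitz. -/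
theorem map_lipschitz {Y : Type} (P : PM Y) (f : FreeGroup α → Y) (L : ℕ)
    (hL : ∀ g x, IsGen x → P.d (f g) (f (g * x)) ≤ L) (g g' : FreeGroup α) :
    P.d (f g) (f g') ≤ L * (FG α).pm.d g g' := by
  obtain ⟨l, hl, hl1, hl2⟩ := exists_min_list (g⁻¹ * g')
  have hg' : g' = g * l.prod := by rw [hl2]; group
  have hd : (FG α).pm.d g g' = l.length := by rw [hl]; rfl
  rw [hd, hg']
  clear hl hl2 hd hg'
  induction l generalizing g with
  | nil => simp [P.self]
  | cons x l ih =>
    rw [List.prod_cons, List.length_cons, ← mul_assoc]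
    have e1 := P.tri (f g) (f (g * x)) (f (g * x * l.prod))
    have e2 := hL g x (hl1 x (by simp))
    have e3 := ih (g * x) (fun y hy => hl1 y (by simp [hy]))
    rw [Nat.mul_add]
    omega

theorem QE.of_equiv (e : α ≃ β) : QE (FG α).pm (FG β).pm := by
  have h1 : ∀ g, nrm (FreeGroup.map e g) ≤ 1 * nrm g := by
    intro g
    exact hom_lipschitz (FG β) (FreeGroup.map e) 1 (by
      intro i
      simp only [FreeGroup.map.of]
      exact nrm_of_le _) g
  have h2 : ∀ g, nrm (FreeGroup.map e.symm g) ≤ 1 * nrm g := by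
    intro g
    exact hom_lipschitz (FG α) (FreeGroup.map e.symm) 1 (by
      intro i
      simp only [FreeGroup.map.of]
      exact nrm_of_le _) g
  refine ⟨FreeGroup.map e, FreeGroup.map e.symm, 1, ?_, ?_, ?_, ?_⟩
  · intro x x'
    have := h1 (x⁻¹ * x')
    rw [map_mul, map_inv] at this
    simp only [BI.d_def, FG]
    omega
  · intro x x'
    have := h2 (x⁻¹ * x')
    rw [map_mul, map_inv] at this
    simp only [BI.d_def, FG]
    omega
  · intro x
    have : FreeGroup.map e.symm (FreeGroup.map e x) = x := by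
      rw [FreeGroup.map.comp]; simp
    rw [this, PM.self]
    omega
  · intro x
    have : FreeGroup.map e (FreeGroup.map e.symm x) = x := by
      rw [FreeGroup.map.comp]; simp
    rw [this, PM.self]
    omega

end Pool.Agent.Helper78_FG
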