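import Mathlib
import Pool.Agent.Helper78_FG.Norm

set_option autoImplicit false

/-!
The quasi-homomorphism `r : FreeGroup α → FreeGroup ℕ` which reads off the maximal `b`-power blocks
of a reduced word, and a homomorphic section of it.
-/

namespace Pool.Agent.Helper78_FG

variable {α : Type}

/-- Block weights: even exponents are ignored, the exponent `2i+1` gives the generator `i`. -/
def sg (m : ℤ) : FreeGroup ℕ :=
  if m.natAbs % 2 = 0 then 1
  else if 0 < m then FreeGroup.of (m.natAbs / 2) else (FreeGroup.of (m.natAbs / 2))⁻¹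

theorem sg_zero : sg 0 = 1 := by simp [sg]

theorem sg_neg (m : ℤ) : sg (-m) = (sg m)⁻¹ := by
  unfold sg
  rw [Int.natAbs_neg]
  by_cases h : m.natAbs % 2 = 0
  · rw [if_pos h, if_pos h, inv_one]
  · rw [if_neg h, if_neg h]
    by_cases h0 : 0 < m
    · rw [if_neg (by omega), if_pos h0]
    · have : m ≠ 0 := by rintro rfl; simp at h
      rw [if_pos (by omega), if_neg h0, inv_inv]

theorem sg_even (m : ℤ) (h : 2 ∣ m) : sg m = 1 := by
  unfold sg
  rw [if_pos]
  omega

theorem sg_odd (i : ℕ) : sg (2 * i + 1) = FreeGroup.of i := by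
  unfold sg
  rw [if_neg (by omega), if_pos (by omega)]
  congr 1
  omega

theorem nrm_sg (m : ℤ) : nrm (sg m) ≤ 1 := by
  unfold sg
  split_ifs
  · rw [nrm_one]; omega
  · exact nrm_of_le _
  · rw [nrm_inv]; exact nrm_of_le _

/-- The sign of a letter. -/
def sgn (e : Bool) : ℤ := if e then 1 else -1

theorem sgn_not (e : Bool) : sgn (!e) = - sgn e := by cases e <;> simp [sgn]

variable [DecidableEq α]

/-- Scan a word from left to right with pending exponent `m` of the current `b`-block, and add `n` to
the last block. -/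
def scan (b : α) : ℤ → List (α × Bool) → ℤ → FreeGroup ℕ
  | m, [], n => sg (m + n)
  | m, (c, e) :: L, n => if c = b then scan b (m + sgn e) L n else sg m * scan b 0 L n

theorem scan_append_single (b : α) (L : List (α × Bool)) (m n : ℤ) (c : α) (e : Bool) :
    scan b m (L ++ [(c, e)]) n = if c = b then scan b m L (sgn e + n) else scan b m L 0 * sg n := by
  induction L generalizing m with
  | nil =>
    simp only [List.nil_append, scan]
    by_cases h : c = b
    · rw [if_pos h, if_pos h, add_assoc]
    · rw [if_neg h, if_neg h, zero_add, add_zero]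
  | cons x L ih =>
    obtain ⟨c', e'⟩ := x
    simp only [List.cons_append, scan]
    by_cases h' : c' = b
    · rw [if_pos h', ih]
      by_cases h : c = b
      · simp [h, h']
      · simp [h, h']
    · rw [if_neg h', ih]
      by_cases h : c = b
      · simp [h, h']
      · simp [h, h', mul_assoc]

theorem scan_invRev (b : α) (L : List (α × Bool)) (m n : ℤ) :
    scan b (-n) (FreeGroup.invRev L) (-m) = (scan b m L n)⁻¹ := by
  induction L generalizing m with
  | nil =>
    simp only [FreeGroup.invRev_empty, scan]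
    rw [← sg_neg]
    congr 1
    ring
  | cons x L ih =>
    obtain ⟨c, e⟩ := x
    have e1 : FreeGroup.invRev ((c, e) :: L) = FreeGroup.invRev L ++ [(c, !e)] := by
      simp [FreeGroup.invRev]
    rw [e1, scan_append_single]
    simp only [scan]
    by_cases h : c = b
    · rw [if_pos h, if_pos h, ← ih, sgn_not]
      congr 1
      ring
    · rw [if_neg h, if_neg h, mul_inv_rev, ← sg_neg]
      have := ih 0
      rw [neg_zero] at this
      rw [this]

/-- Splitting the pending exponent changes the scan by at most `3`. -/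
theorem scan_split (b : α) (L : List (α × Bool)) (m n : ℤ) :
    (FG ℕ).pm.d (scan b (m + n) L 0) (sg m * scan b n L 0) ≤ 3 := by
  induction L generalizing n with
  | nil =>
    simp only [scan, BI.d_def]
    refine ((FG ℕ).mul_le _ _).trans ?_
    rw [(FG ℕ).inv]
    have h1 : (FG ℕ).N (sg m * sg (n + 0)) ≤ 2 := by
      refine ((FG ℕ).mul_le _ _).trans ?_
      have h1 := nrm_sg m
      have h2 := nrm_sg (n + 0)
      show nrm _ + nrm _ ≤ 2
      omega
    have h2 : (FG ℕ).N (sg (m + n + 0)) ≤ 1 := nrm_sg _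
    omega
  | cons x L ih =>
    obtain ⟨c, e⟩ := x
    simp only [scan]
    by_cases h : c = b
    · rw [if_pos h, if_pos h, add_assoc]
      exact ih _
    · rw [if_neg h, if_neg h, ← mul_assoc, BI.d_mul_right, BI.d_def]
      refine ((FG ℕ).mul_le _ _).trans ?_
      rw [(FG ℕ).inv]
      have h1 : (FG ℕ).N (sg m * sg n) ≤ 2 := by
        refine ((FG ℕ).mul_le _ _).trans ?_
        have h1 := nrm_sg m
        have h2 := nrm_sg n
        show nrm _ + nrm _ ≤ 2
        omega
      have h2 : (FG ℕ).N (sg (m + n)) ≤ 1 := nrm_sg _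
      omega

theorem scan_append (b : α) (L₁ L₂ : List (α × Bool)) (m : ℤ) :
    (FG ℕ).pm.d (scan b m (L₁ ++ L₂) 0) (scan b m L₁ 0 * scan b 0 L₂ 0) ≤ 3 := by
  induction L₁ generalizing m with
  | nil =>
    have := scan_split b L₂ m 0
    simpa [scan] using this
  | cons x L ih =>
    obtain ⟨c, e⟩ := x
    simp only [List.cons_append, scan]
    by_cases h : c = b
    · rw [if_pos h, if_pos h]
      exact ih _
    · rw [if_neg h, if_neg h, mul_assoc, BI.d_mul_left]
      exact ih _

/-- The reduced words of a product: maximal cancellation. -/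
theorem cancel_list (L₁ L₂ : List (α × Bool)) (h₁ : FreeGroup.IsReduced L₁)
    (h₂ : FreeGroup.IsReduced L₂) :
    ∃ A Z B, L₁ = A ++ Z ∧ L₂ = FreeGroup.invRev Z ++ B ∧ FreeGroup.IsReduced (A ++ B) := by
  induction L₁ using List.reverseRecOn generalizing L₂ with
  | nil => exact ⟨[], [], L₂, by simp, by simp [FreeGroup.invRev], by simpa using h₂⟩
  | append_singleton L x ih =>
    cases L₂ with
    | nil => exact ⟨L ++ [x], [], [], by simp, by simp [FreeGroup.invRev], by simpa using h₁⟩
    | cons y L₂ =>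
      by_cases hxy : x.1 = y.1 ∧ x.2 = !y.2
      · have hL : FreeGroup.IsReduced L := List.IsChain.left_of_append h₁
        have hL₂ : FreeGroup.IsReduced L₂ := List.IsChain.tail h₂
        obtain ⟨A, Z, B, hA, hB, hAB⟩ := ih L₂ hL hL₂
        refine ⟨A, Z ++ [x], B, by rw [hA]; simp, ?_, hAB⟩
        rw [hB]
        have : FreeGroup.invRev (Z ++ [x]) = (x.1, !x.2) :: FreeGroup.invRev Z := by
          simp [FreeGroup.invRev]
        rw [this, hxy.1, hxy.2]
        simp
      · refine ⟨L ++ [x], [], y :: L₂, by simp, by simp [FreeGroup.invRev], ?_⟩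
        have h3 : FreeGroup.IsReduced ([x] ++ (y :: L₂)) := by
          rw [List.singleton_append, FreeGroup.isReduced_cons_cons]
          refine ⟨fun h => ?_, h₂⟩
          by_contra h4
          apply hxy
          refine ⟨h, ?_⟩
          revert h4
          cases x.2 <;> cases y.2 <;> simp
        exact FreeGroup.IsReduced.append_overlap h₁ h3 (by simp)

theorem cancel_word (g h : FreeGroup α) :
    ∃ A Z B, g.toWord = A ++ Z ∧ h.toWord = FreeGroup.invRev Z ++ B ∧
      (g * h).toWord = A ++ B := by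
  obtain ⟨A, Z, B, hA, hB, hAB⟩ := cancel_list g.toWord h.toWord
    FreeGroup.isReduced_toWord FreeGroup.isReduced_toWord
  refine ⟨A, Z, B, hA, hB, ?_⟩
  have e : g * h = FreeGroup.mk (A ++ B) := by
    rw [← FreeGroup.mk_toWord (x := g), ← FreeGroup.mk_toWord (x := h), hA, hB]
    simp only [← FreeGroup.mul_mk, ← FreeGroup.inv_mk]
    group
  rw [e, FreeGroup.toWord_mk, hAB.reduce_eq]

/-- The quasi-homomorphism. -/
def rr (b : α) (g : FreeGroup α) : FreeGroup ℕ := scan b 0 g.toWord 0

theorem rr_quasi (b : α) (g h : FreeGroup α) :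
    (FG ℕ).pm.d (rr b (g * h)) (rr b g * rr b h) ≤ 9 := by
  obtain ⟨A, Z, B, hA, hB, hAB⟩ := cancel_word g h
  unfold rr
  rw [hA, hB, hAB]
  have e1 := scan_append b A Z 0
  have e2 := scan_append b (FreeGroup.invRev Z) B 0
  have e3 := scan_append b A B 0
  have e4 : scan b 0 (FreeGroup.invRev Z) 0 = (scan b 0 Z 0)⁻¹ := by
    have := scan_invRev b Z 0 0
    simpa using this
  rw [e4] at e2
  have e5 := (FG ℕ).d_mul_le (scan b 0 (A ++ Z) 0) (scan b 0 (FreeGroup.invRev Z ++ B) 0)
    (scan b 0 A 0 * scan b 0 Z 0) ((scan b 0 Z 0)⁻¹ * scan b 0 B 0)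
  have e6 : scan b 0 A 0 * scan b 0 Z 0 * ((scan b 0 Z 0)⁻¹ * scan b 0 B 0)
      = scan b 0 A 0 * scan b 0 B 0 := by group
  rw [e6] at e5
  have e7 := (FG ℕ).pm.tri (scan b 0 (A ++ B) 0) (scan b 0 A 0 * scan b 0 B 0)
    (scan b 0 (A ++ Z) 0 * scan b 0 (FreeGroup.invRev Z ++ B) 0)
  rw [(FG ℕ).pm.symm (scan b 0 A 0 * scan b 0 B 0)] at e7
  omega

theorem rr_of (b c : α) : nrm (rr b (FreeGroup.of c)) ≤ 2 := by
  unfold rr
  rw [FreeGroup.toWord_of]
  simp only [scan]
  split_ifs
  · exact (nrm_sg _).trans (by omega)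
  · refine (nrm_mul_le _ _).trans ?_
    have h1 := nrm_sg 0
    have h2 := nrm_sg (0 + 0)
    omega

theorem rr_inv (b : α) (g : FreeGroup α) : rr b g⁻¹ = (rr b g)⁻¹ := by
  unfold rr
  rw [FreeGroup.toWord_inv]
  have := scan_invRev b g.toWord 0 0
  simpa using this

theorem rr_gen (b : α) (x : FreeGroup α) (hx : IsGen x) : nrm (rr b x) ≤ 20 := by
  have key : ∀ (h y : FreeGroup α), nrm (rr b y) ≤ 2 → nrm (rr b (h * y * h⁻¹)) ≤ 20 := by
    intro h y hy
    have e1 := rr_quasi b (h * y) h⁻¹
    have e2 := rr_quasi b h y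
    rw [rr_inv] at e1
    have e3 := (FG ℕ).d_mul_right (rr b h)⁻¹ (rr b (h * y)) (rr b h * rr b y)
    have e4 := (FG ℕ).pm.tri (rr b (h * y * h⁻¹)) (rr b (h * y) * (rr b h)⁻¹)
      (rr b h * rr b y * (rr b h)⁻¹)
    have e5 := (FG ℕ).pm.tri (rr b (h * y * h⁻¹)) (rr b h * rr b y * (rr b h)⁻¹) 1
    rw [BI.d_one_right, BI.d_one_right, (FG ℕ).conj] at e5
    change nrm (rr b (h * y * h⁻¹)) ≤ _ + nrm (rr b y) at e5
    omega
  obtain ⟨i, h, hx | hx⟩ := hx
  · rw [hx]
    exact key h _ (rr_of b i)
  · rw [hx]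
    refine key h _ ?_
    rw [rr_inv, nrm_inv]
    exact rr_of b i

theorem rr_lipschitz (b : α) (g g' : FreeGroup α) :
    (FG ℕ).pm.d (rr b g) (rr b g') ≤ 29 * (FG α).pm.d g g' := by
  apply map_lipschitz (FG ℕ).pm (rr b) 29
  intro g x hx
  have e1 := rr_quasi b g x
  have e2 := rr_gen b x hx
  have e3 := (FG ℕ).pm.tri (rr b g) (rr b g * rr b x) (rr b (g * x))
  rw [(FG ℕ).pm.symm (rr b g * rr b x)] at e3
  have e4 : (FG ℕ).pm.d (rr b g) (rr b g * rr b x) = nrm (rr b x) := by
    have := (FG ℕ).d_mul_left (rr b g) 1 (rr b x)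
    rw [mul_one, BI.d_one_left] at this
    exact this
  omega

/-- The word `b ^ m`. -/
def bp (b : α) (m : ℤ) : List (α × Bool) := List.replicate m.natAbs (b, decide (0 ≤ m))

omit [DecidableEq α] in
theorem mk_bp (b : α) (m : ℤ) : FreeGroup.mk (bp b m) = FreeGroup.of b ^ m := by
  have key : ∀ (n : ℕ) (e : Bool), FreeGroup.mk (List.replicate n (b, e)) =
      (FreeGroup.mk [(b, e)]) ^ n := by
    intro n e
    induction n with
    | zero => rfl
    | succ n ih =>
      rw [List.replicate_succ, pow_succ', ← ih, FreeGroup.mul_mk]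
      rfl
  unfold bp
  rw [key]
  by_cases h : 0 ≤ m
  · rw [decide_eq_true h]
    obtain ⟨n, rfl⟩ := Int.eq_ofNat_of_zero_le h
    rw [Int.natAbs_natCast, zpow_natCast]
    rfl
  · rw [decide_eq_false h]
    obtain ⟨n, hn⟩ : ∃ n : ℕ, m = -(n : ℤ) := ⟨m.natAbs, by omega⟩
    subst hn
    rw [Int.natAbs_neg, Int.natAbs_natCast, zpow_neg, zpow_natCast, ← inv_pow]
    rfl

theorem scan_bp (b : α) (m k : ℤ) (L : List (α × Bool)) (n : ℤ) :
    scan b k (bp b m ++ L) n = scan b (k + m) L n := by
  have key : ∀ (j : ℕ) (e : Bool) (k : ℤ), scan b k (List.replicate j (b, e) ++ L) n =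
      scan b (k + j * sgn e) L n := by
    intro j e
    induction j with
    | zero => intro k; simp
    | succ j ih =>
      intro k
      rw [List.replicate_succ, List.cons_append]
      simp only [scan, if_true]
      rw [ih]
      congr 1
      push_cast
      ring
  unfold bp
  rw [key]
  congr 1
  by_cases h : 0 ≤ m
  · rw [decide_eq_true h]
    simp only [sgn, if_true]
    omega
  · rw [decide_eq_false h]
    simp only [sgn]
    have : ((m.natAbs : ℕ) : ℤ) = -m := by omega
    rw [this]
    simp

/-- The section words. -/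
def W (a b : α) : ℤ → List (ℕ × Bool) → List (α × Bool)
  | m, [] => bp b m
  | m, (i, true) :: L =>
      bp b (m + 2 * i) ++ (a, true) :: (bp b (2 * i + 1) ++ (a, true) :: W a b (-(4 * i)) L)
  | m, (i, false) :: L =>
      bp b (m + 4 * i) ++ (a, false) :: (bp b (-(2 * i + 1)) ++ (a, false) :: W a b (-(2 * i)) L)

/-- The section homomorphism. -/
def ps (a b : α) : FreeGroup ℕ →* FreeGroup α :=
  FreeGroup.lift (fun i => FreeGroup.of b ^ (2 * (i : ℤ)) * FreeGroup.of a *
    FreeGroup.of b ^ (2 * (i : ℤ) + 1) * FreeGroup.of a * FreeGroup.of b ^ (-(4 * (i : ℤ))))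

omit [DecidableEq α] in
theorem ps_of (a b : α) (i : ℕ) : ps a b (FreeGroup.of i) = FreeGroup.of b ^ (2 * (i : ℤ)) *
    FreeGroup.of a * FreeGroup.of b ^ (2 * (i : ℤ) + 1) * FreeGroup.of a *
      FreeGroup.of b ^ (-(4 * (i : ℤ))) := by
  simp [ps]

omit [DecidableEq α] in
theorem mk_cons (x : α × Bool) (L : List (α × Bool)) :
    FreeGroup.mk (x :: L) = FreeGroup.mk [x] * FreeGroup.mk L := by
  rw [FreeGroup.mul_mk]; rfl

omit [DecidableEq α] in
theorem mk_W (a b : α) (m : ℤ) (L : List (ℕ × Bool)) :
    FreeGroup.mk (W a b m L) = FreeGroup.of b ^ m * ps a b (FreeGroup.mk L) := by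
  have ht : FreeGroup.mk [(a, true)] = FreeGroup.of a := rfl
  have hf : FreeGroup.mk [(a, false)] = (FreeGroup.of a)⁻¹ := rfl
  induction L generalizing m with
  | nil =>
    simp only [W]
    rw [mk_bp, ← FreeGroup.one_eq_mk, map_one, mul_one]
  | cons x L ih =>
    obtain ⟨i, e⟩ := x
    have hti : FreeGroup.mk [(i, true)] = FreeGroup.of i := rfl
    have hfi : FreeGroup.mk [(i, false)] = (FreeGroup.of i)⁻¹ := rfl
    cases e with
    | true =>
      simp only [W]
      rw [← FreeGroup.mul_mk, mk_cons (a, true) (_ ++ _), ← FreeGroup.mul_mk,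
        mk_cons (a, true) (W a b _ L), ih, mk_bp, mk_bp, ht, mk_cons (i, true) L, map_mul, hti,
        ps_of, zpow_add]
      simp only [mul_assoc]
    | false =>
      simp only [W]
      rw [← FreeGroup.mul_mk, mk_cons (a, false) (_ ++ _), ← FreeGroup.mul_mk,
        mk_cons (a, false) (W a b _ L), ih, mk_bp, mk_bp, hf, mk_cons (i, false) L, map_mul, hfi,
        map_inv, ps_of, zpow_add]
      simp only [mul_inv_rev, mul_assoc, zpow_neg, inv_inv]

theorem scan_W (a b : α) (hab : a ≠ b) (m : ℤ) (hm : 2 ∣ m) (L : List (ℕ × Bool)) :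
    scan b 0 (W a b m L) 0 = FreeGroup.mk L := by
  induction L generalizing m with
  | nil =>
    simp only [W]
    have := scan_bp b m 0 [] 0
    rw [List.append_nil] at this
    rw [this]
    simp only [scan]
    rw [sg_even _ (by omega)]
    rfl
  | cons x L ih =>
    obtain ⟨i, e⟩ := x
    have hti : FreeGroup.mk [(i, true)] = FreeGroup.of i := rfl
    have hfi : FreeGroup.mk [(i, false)] = (FreeGroup.of i)⁻¹ := rfl
    cases e with
    | true =>
      simp only [W]
      rw [scan_bp]
      simp only [scan]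
      rw [if_neg hab, scan_bp]
      simp only [scan]
      rw [if_neg hab, ih _ (by omega), sg_even (0 + (m + 2 * i)) (by omega), zero_add, sg_odd,
        one_mul, mk_cons (i, true), hti]
    | false =>
      simp only [W]
      rw [scan_bp]
      simp only [scan]
      rw [if_neg hab, scan_bp]
      simp only [scan]
      rw [if_neg hab, ih _ (by omega), sg_even (0 + (m + 4 * i)) (by omega), zero_add, sg_neg,
        sg_odd, one_mul, mk_cons (i, false), hfi]

omit [DecidableEq α] in
/-- Reducedness of `b ^ k` followed by a reduced word starting with an `a`-letter. -/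
theorem red_bp (a b : α) (hab : a ≠ b) (k : ℤ) (f : Bool) (M : List (α × Bool))
    (hM : FreeGroup.IsReduced ((a, f) :: M)) :
    FreeGroup.IsReduced (bp b k ++ (a, f) :: M) := by
  have key : ∀ (n : ℕ) (e : Bool),
      FreeGroup.IsReduced (List.replicate n (b, e) ++ (a, f) :: M) := by
    intro n e
    induction n with
    | zero => simpa using hM
    | succ n ih =>
      rw [List.replicate_succ, List.cons_append]
      cases n with
      | zero =>
        simp only [List.replicate_zero, List.nil_append, FreeGroup.isReduced_cons_cons]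
        exact ⟨fun h => absurd h.symm hab, hM⟩
      | succ n =>
        rw [List.replicate_succ, List.cons_append] at ih ⊢
        rw [FreeGroup.isReduced_cons_cons]
        exact ⟨fun _ => rfl, ih⟩
  exact key _ _

omit [DecidableEq α] in
theorem red_a_bp (a b : α) (hab : a ≠ b) (k : ℤ) (e f : Bool) (M : List (α × Bool))
    (hk : k = 0 → e = f) (hM : FreeGroup.IsReduced ((a, f) :: M)) :
    FreeGroup.IsReduced ((a, e) :: (bp b k ++ (a, f) :: M)) := by
  have h1 := red_bp a b hab k f M hM
  by_cases h : k = 0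
  · subst h
    simp only [bp, Int.natAbs_zero, List.replicate_zero, List.nil_append] at h1 ⊢
    rw [FreeGroup.isReduced_cons_cons]
    exact ⟨fun _ => hk rfl, hM⟩
  · have : ∃ n, k.natAbs = n + 1 := ⟨k.natAbs - 1, by omega⟩
    obtain ⟨n, hn⟩ := this
    unfold bp at h1 ⊢
    rw [hn, List.replicate_succ, List.cons_append] at h1 ⊢
    rw [FreeGroup.isReduced_cons_cons]
    exact ⟨fun h => absurd h hab, h1⟩

omit [DecidableEq α] in
theorem red_a_bp_nil (a b : α) (hab : a ≠ b) (k : ℤ) (e : Bool) :
    FreeGroup.IsReduced ((a, e) :: bp b k) := by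
  unfold bp
  have key : ∀ (n : ℕ) (f : Bool), FreeGroup.IsReduced (List.replicate n (b, f)) := by
    intro n f
    exact List.isChain_replicate_of_rel _ (fun _ => rfl)
  rcases hn : k.natAbs with _ | n
  · simp
  · have h1 := key (n + 1) (decide (0 ≤ k))
    rw [List.replicate_succ] at h1 ⊢
    rw [FreeGroup.isReduced_cons_cons]
    exact ⟨fun h => absurd h hab, h1⟩

/-- The compatibility condition for the pending exponent. -/
def Cond (e : Bool) (m : ℤ) : List (ℕ × Bool) → Prop
  | [] => True
  | (i, true) :: _ => m + 2 * i = 0 → e = true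
  | (i, false) :: _ => m + 4 * i = 0 → e = false

omit [DecidableEq α] in
theorem red_W (a b : α) (hab : a ≠ b) (L : List (ℕ × Bool)) (hL : FreeGroup.IsReduced L)
    (m : ℤ) (e : Bool) (hc : Cond e m L) : FreeGroup.IsReduced ((a, e) :: W a b m L) := by
  induction L generalizing m e with
  | nil =>
    simp only [W]
    exact red_a_bp_nil a b hab m e
  | cons x L ih =>
    obtain ⟨i, f⟩ := x
    have hL' : FreeGroup.IsReduced L := List.IsChain.tail hL
    cases f with
    | true =>
      simp only [W]
      apply red_a_bp a b hab _ _ _ _ hc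
      apply red_a_bp a b hab _ _ _ _ (fun _ => rfl)
      apply ih hL'
      cases L with
      | nil => trivial
      | cons y L =>
        obtain ⟨j, g⟩ := y
        cases g with
        | true => exact fun _ => rfl
        | false =>
          intro h
          exfalso
          rw [FreeGroup.isReduced_cons_cons] at hL
          have hij : i = j := by omega
          have := hL.1 hij
          simp at this
    | false =>
      simp only [W]
      apply red_a_bp a b hab _ _ _ _ hc
      apply red_a_bp a b hab _ _ _ _ (fun _ => rfl)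
      apply ih hL'
      cases L with
      | nil => trivial
      | cons y L =>
        obtain ⟨j, g⟩ := y
        cases g with
        | false => exact fun _ => rfl
        | true =>
          intro h
          exfalso
          rw [FreeGroup.isReduced_cons_cons] at hL
          have hij : i = j := by omega
          have := hL.1 hij
          simp at this

theorem rr_ps (a b : α) (hab : a ≠ b) (y : FreeGroup ℕ) : rr b (ps a b y) = y := by
  have h1 : ps a b y = FreeGroup.mk (W a b 0 y.toWord) := by
    rw [mk_W, FreeGroup.mk_toWord, zpow_zero, one_mul]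
  have h2 : FreeGroup.IsReduced (W a b 0 y.toWord) := by
    have hy : FreeGroup.IsReduced y.toWord := FreeGroup.isReduced_toWord
    have : ∃ e, Cond e 0 y.toWord := by
      cases hw : y.toWord with
      | nil => exact ⟨true, trivial⟩
      | cons x L =>
        obtain ⟨i, f⟩ := x
        cases f with
        | true => exact ⟨true, fun _ => rfl⟩
        | false => exact ⟨false, fun _ => rfl⟩
    obtain ⟨e, he⟩ := this
    exact List.IsChain.tail (red_W a b hab _ hy 0 e he)
  unfold rr
  rw [h1, FreeGroup.toWord_mk, h2.reduce_eq, scan_W a b hab 0 (by omega), FreeGroup.mk_toWord]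

omit [DecidableEq α] in
theorem nrm_ps_of (a b : α) (i : ℕ) : nrm (ps a b (FreeGroup.of i)) ≤ 3 := by
  rw [ps_of]
  have e : FreeGroup.of b ^ (2 * (i : ℤ)) * FreeGroup.of a * FreeGroup.of b ^ (2 * (i : ℤ) + 1) *
      FreeGroup.of a * FreeGroup.of b ^ (-(4 * (i : ℤ))) =
      (FreeGroup.of b ^ (2 * (i : ℤ)) * FreeGroup.of a * (FreeGroup.of b ^ (2 * (i : ℤ)))⁻¹) *
      (FreeGroup.of b ^ (4 * (i : ℤ) + 1) * FreeGroup.of a *
        (FreeGroup.of b ^ (4 * (i : ℤ) + 1))⁻¹) * FreeGroup.of b := by
    group
  rw [e]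
  refine (nrm_mul_le _ _).trans ?_
  have h1 := nrm_of_le b
  have h2 := nrm_mul_le (FreeGroup.of b ^ (2 * (i : ℤ)) * FreeGroup.of a *
    (FreeGroup.of b ^ (2 * (i : ℤ)))⁻¹) (FreeGroup.of b ^ (4 * (i : ℤ) + 1) * FreeGroup.of a *
        (FreeGroup.of b ^ (4 * (i : ℤ) + 1))⁻¹)
  rw [nrm_conj, nrm_conj] at h2
  have h3 := nrm_of_le a
  omega

/-- `F_α` splits off `F_ℕ` when `α` has two distinct elements. -/
theorem split_free (a b : α) (hab : a ≠ b) :
    ∃ s : Set (FreeGroup α), QE (FG α).pm ((FG ℕ).pm.prod ((FG α).pm.sub s)) := by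
  apply split_lemma (FG α) (FG ℕ) 29 (ps a b) (rr b)
  · intro h
    have := hom_lipschitz (FG α) (ps a b) 3 (nrm_ps_of a b) h
    change nrm (ps a b h) ≤ 29 * nrm h
    change nrm (ps a b h) ≤ 3 * nrm h at this
    omega
  · intro g g'
    have := rr_lipschitz b g g'
    omega
  · intro g g'
    have := rr_quasi b g g'
    omega
  · exact rr_ps a b hab

end Pool.Agent.Helper78_FG
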