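import Mathlib
import Pool.Agent.Helper78_FG.Norm

set_option autoImplicit false

/-!
The swindle: with `H = FreeGroup α` and `G = FreeGroup (ℕ × α)`, the space `H × G` is
quasi-isometric to `G`.
-/

namespace Pool.Agent.Helper78_FG

variable {α : Type}

/-- Retraction to the `j`-th free factor. -/
def pr (j : ℕ) : FreeGroup (ℕ × α) →* FreeGroup α :=
  FreeGroup.lift (fun p => if p.1 = j then FreeGroup.of p.2 else 1)

/-- Inclusion of the `j`-th free factor. -/
def inc (j : ℕ) : FreeGroup α →* FreeGroup (ℕ × α) :=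
  FreeGroup.lift (fun i => FreeGroup.of (j, i))

/-- The shift. -/
def sh : FreeGroup (ℕ × α) →* FreeGroup (ℕ × α) :=
  FreeGroup.lift (fun p => FreeGroup.of (p.1 + 1, p.2))

/-- The backward shift, which kills the zeroth factor. -/
def bsh : FreeGroup (ℕ × α) →* FreeGroup (ℕ × α) :=
  FreeGroup.lift (fun p => if p.1 = 0 then 1 else FreeGroup.of (p.1 - 1, p.2))

theorem pr_of (j : ℕ) (p : ℕ × α) :
    pr j (FreeGroup.of p) = if p.1 = j then FreeGroup.of p.2 else 1 := by
  simp [pr]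

theorem inc_of (j : ℕ) (i : α) : inc j (FreeGroup.of i) = FreeGroup.of (j, i) := by
  simp [inc]

theorem sh_of (p : ℕ × α) : sh (FreeGroup.of p) = FreeGroup.of (p.1 + 1, p.2) := by
  simp [sh]

theorem bsh_of (p : ℕ × α) :
    bsh (FreeGroup.of p) = if p.1 = 0 then 1 else FreeGroup.of (p.1 - 1, p.2) := by
  simp [bsh]

theorem pr_inc_same (j : ℕ) (h : FreeGroup α) : pr j (inc j h) = h := by
  have : (pr j).comp (inc j) = MonoidHom.id (FreeGroup α) := by
    ext i
    simp [inc_of, pr_of]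
  exact DFunLike.congr_fun this h

theorem pr_inc_ne {j k : ℕ} (hjk : k ≠ j) (h : FreeGroup α) : pr j (inc k h) = 1 := by
  have : (pr j).comp (inc k) = (1 : FreeGroup α →* FreeGroup α) := by
    ext i
    simp [inc_of, pr_of, hjk]
  exact DFunLike.congr_fun this h

theorem sh_inc (j : ℕ) (h : FreeGroup α) : sh (inc j h) = inc (j + 1) h := by
  have : sh.comp (inc j) = inc (α := α) (j + 1) := by
    ext i
    simp [inc_of, sh_of]
  exact DFunLike.congr_fun this h

theorem bsh_inc_succ (j : ℕ) (h : FreeGroup α) : bsh (inc (j + 1) h) = inc j h := by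
  have : bsh.comp (inc (j + 1)) = inc (α := α) j := by
    ext i
    simp [inc_of, bsh_of]
  exact DFunLike.congr_fun this h

theorem bsh_inc_zero (h : FreeGroup α) : bsh (inc 0 h) = 1 := by
  have : bsh.comp (inc 0) = (1 : FreeGroup α →* FreeGroup (ℕ × α)) := by
    ext i
    simp [inc_of, bsh_of]
  exact DFunLike.congr_fun this h

theorem bsh_sh (g : FreeGroup (ℕ × α)) : bsh (sh g) = g := by
  have : bsh.comp sh = MonoidHom.id (FreeGroup (ℕ × α)) := by
    ext i
    simp [sh_of, bsh_of]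
  exact DFunLike.congr_fun this g

theorem pr_zero_sh (g : FreeGroup (ℕ × α)) : pr 0 (sh g) = 1 := by
  have : (pr 0).comp sh = (1 : FreeGroup (ℕ × α) →* FreeGroup α) := by
    ext i
    simp [sh_of, pr_of]
  exact DFunLike.congr_fun this g

theorem pr_succ_sh (j : ℕ) (g : FreeGroup (ℕ × α)) : pr (j + 1) (sh g) = pr j g := by
  have : (pr (j + 1)).comp sh = pr (α := α) j := by
    ext i
    simp [sh_of, pr_of]
  exact DFunLike.congr_fun this g

theorem pr_bsh (j : ℕ) (g : FreeGroup (ℕ × α)) : pr j (bsh g) = pr (j + 1) g := by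
  have : (pr j).comp bsh = pr (α := α) (j + 1) := by
    ext i
    rcases i with ⟨k, i⟩
    rcases k with _ | k
    · simp [bsh_of, pr_of]
    · simp [bsh_of, pr_of]
  exact DFunLike.congr_fun this g

/-- Each element has only finitely many nontrivial projections. -/
theorem exists_bound (g : FreeGroup (ℕ × α)) : ∃ N, ∀ j, N ≤ j → pr j g = 1 := by
  induction g using FreeGroup.induction_on with
  | C1 => exact ⟨0, fun j _ => map_one _⟩
  | of i => exact ⟨i.1 + 1, fun j hj => by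
      rw [pr_of, if_neg]; omega⟩
  | inv_of i h =>
    obtain ⟨N, hN⟩ := h
    exact ⟨N, fun j hj => by rw [map_inv, hN j hj, inv_one]⟩
  | mul x y hx hy =>
    obtain ⟨N, hN⟩ := hx
    obtain ⟨M, hM⟩ := hy
    exact ⟨N + M, fun j hj => by
      rw [map_mul, hN j (by omega), hM j (by omega), one_mul]⟩

/-- The ordered product of the first `N` projections. -/
def PN (N : ℕ) (h : ℕ → FreeGroup α) : FreeGroup (ℕ × α) :=
  ((List.range N).map (fun j => inc j (h j))).prod

theorem PN_succ (N : ℕ) (h : ℕ → FreeGroup α) : PN (N + 1) h = PN N h * inc N (h N) := by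
  simp [PN, List.range_succ]

theorem PN_zero (h : ℕ → FreeGroup α) : PN 0 h = 1 := by
  simp [PN]

theorem PN_succ' (N : ℕ) (h : ℕ → FreeGroup α) :
    PN (N + 1) h = inc 0 (h 0) * sh (PN N (fun j => h (j + 1))) := by
  induction N with
  | zero => rw [PN_succ, PN_zero, PN_zero]; simp
  | succ N ih =>
    rw [PN_succ, ih, PN_succ N (fun j => h (j + 1)), map_mul, sh_inc, mul_assoc]

theorem PN_add (N k : ℕ) (h : ℕ → FreeGroup α) (hN : ∀ j, N ≤ j → h j = 1) :
    PN (N + k) h = PN N h := by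
  induction k with
  | zero => rfl
  | succ k ih => rw [← add_assoc, PN_succ, hN (N + k) (by omega), map_one, mul_one, ih]

theorem PN_eq (N M : ℕ) (h : ℕ → FreeGroup α) (hN : ∀ j, N ≤ j → h j = 1)
    (hM : ∀ j, M ≤ j → h j = 1) : PN N h = PN M h := by
  rcases Nat.le_total N M with hNM | hNM
  · obtain ⟨k, rfl⟩ := Nat.exists_eq_add_of_le hNM
    exact (PN_add N k h hN).symm
  · obtain ⟨k, rfl⟩ := Nat.exists_eq_add_of_le hNM
    exact PN_add M k h hM

theorem pr_PN (N : ℕ) (h : ℕ → FreeGroup α) (j : ℕ) :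
    pr j (PN N h) = if j < N then h j else 1 := by
  induction N with
  | zero => simp [PN_zero]
  | succ N ih =>
    rw [PN_succ, map_mul, ih]
    by_cases hj : j = N
    · subst hj
      simp [pr_inc_same]
    · rw [pr_inc_ne (Ne.symm hj), mul_one]
      by_cases h2 : j < N
      · rw [if_pos h2, if_pos (by omega)]
      · rw [if_neg h2, if_neg (by omega)]

/-- The ordered product of all projections. -/
noncomputable def P (g : FreeGroup (ℕ × α)) : FreeGroup (ℕ × α) :=
  PN (exists_bound g).choose (fun j => pr j g)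

theorem P_eq (g : FreeGroup (ℕ × α)) (N : ℕ) (hN : ∀ j, N ≤ j → pr j g = 1) :
    P g = PN N (fun j => pr j g) :=
  PN_eq _ _ _ (exists_bound g).choose_spec hN

theorem pr_P (j : ℕ) (g : FreeGroup (ℕ × α)) : pr j (P g) = pr j g := by
  obtain ⟨N, hN⟩ := exists_bound g
  rw [P_eq g N hN, pr_PN]
  by_cases h : j < N
  · rw [if_pos h]
  · rw [if_neg h, hN j (by omega)]

theorem P_congr (g g' : FreeGroup (ℕ × α)) (h : ∀ j, pr j g = pr j g') : P g = P g' := by
  obtain ⟨N, hN⟩ := exists_bound g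
  rw [P_eq g N hN, P_eq g' N (fun j hj => by rw [← h j]; exact hN j hj)]
  congr 1
  funext j
  exact h j

/-- If `g'` has zeroth projection `h` and `(j+1)`-st projection that of the `j`-th of `g`, then the
ordered product of `g'` is `h` times the shift of the ordered product of `g`. -/
theorem P_shift (h : FreeGroup α) (g g' : FreeGroup (ℕ × α)) (h0 : pr 0 g' = h)
    (h1 : ∀ j, pr (j + 1) g' = pr j g) : P g' = inc 0 h * sh (P g) := by
  obtain ⟨N, hN⟩ := exists_bound g
  rw [P_eq g N hN, P_eq g' (N + 1), PN_succ', h0]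
  · congr 3
    funext j
    exact h1 j
  · intro j hj
    obtain ⟨k, rfl⟩ : ∃ k, j = k + 1 := ⟨j - 1, by omega⟩
    rw [h1 k]
    exact hN k (by omega)

theorem sum_nrm_le (N : ℕ) (y : FreeGroup (ℕ × α)) :
    ∑ k ∈ Finset.range N, nrm (pr k y) ≤ 1 * nrm y := by
  apply le_mul_nrm (fun y => ∑ k ∈ Finset.range N, nrm (pr k y)) 1
  · simp [nrm_one]
  · intro x y
    simp only [map_mul]
    rw [← Finset.sum_add_distrib]
    exact Finset.sum_le_sum (fun k _ => nrm_mul_le _ _)
  · intro x hx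
    have key : ∃ j, (∀ k, k ≠ j → pr k x = 1) ∧ nrm (pr j x) ≤ 1 := by
      obtain ⟨i, h, hx | hx⟩ := hx
      · refine ⟨i.1, ?_, ?_⟩
        · intro k hk
          rw [hx, map_mul, map_mul, pr_of, if_neg (Ne.symm hk), mul_one, map_inv, mul_inv_cancel]
        · rw [hx, map_mul, map_mul, pr_of, if_pos rfl, map_inv, nrm_conj]
          exact nrm_of_le _
      · refine ⟨i.1, ?_, ?_⟩
        · intro k hk
          rw [hx, map_mul, map_mul, map_inv, pr_of, if_neg (Ne.symm hk), inv_one, mul_one,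
            map_inv, mul_inv_cancel]
        · rw [hx, map_mul, map_mul, map_inv, pr_of, if_pos rfl, map_inv, nrm_conj, nrm_inv]
          exact nrm_of_le _
    obtain ⟨j, hj1, hj2⟩ := key
    calc ∑ k ∈ Finset.range N, nrm (pr k x)
        ≤ ∑ k ∈ Finset.range N, (if k = j then 1 else 0) := by
          apply Finset.sum_le_sum
          intro k _
          by_cases hk : k = j
          · subst hk; simpa using hj2
          · rw [hj1 k hk, nrm_one]; omega
      _ ≤ 1 := by
          rw [Finset.sum_ite_eq']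
          split_ifs <;> omega

theorem inc_nrm (j : ℕ) (h : FreeGroup α) : nrm (inc j h) ≤ 1 * nrm h :=
  hom_lipschitz (FG (ℕ × α)) (inc j) 1 (fun i => by rw [inc_of]; exact nrm_of_le _) h

theorem sh_nrm (g : FreeGroup (ℕ × α)) : nrm (sh g) ≤ 1 * nrm g :=
  hom_lipschitz (FG (ℕ × α)) sh 1 (fun i => by rw [sh_of]; exact nrm_of_le _) g

theorem bsh_nrm (g : FreeGroup (ℕ × α)) : nrm (bsh g) ≤ 1 * nrm g :=
  hom_lipschitz (FG (ℕ × α)) bsh 1 (fun i => by
    rw [bsh_of]
    by_cases h : i.1 = 0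
    · rw [if_pos h]
      exact (FG (ℕ × α)).one.le.trans (by omega)
    · rw [if_neg h]; exact nrm_of_le _) g

theorem pr_nrm (j : ℕ) (g : FreeGroup (ℕ × α)) : nrm (pr j g) ≤ 1 * nrm g :=
  hom_lipschitz (FG α) (pr j) 1 (fun i => by
    rw [pr_of]
    by_cases h : i.1 = j
    · rw [if_pos h]; exact nrm_of_le _
    · rw [if_neg h]
      exact (FG α).one.le.trans (by omega)) g

theorem hom_d {β γ : Type} (φ : FreeGroup β →* FreeGroup γ) (h : ∀ g, nrm (φ g) ≤ 1 * nrm g)
    (g g' : FreeGroup β) : (FG γ).pm.d (φ g) (φ g') ≤ (FG β).pm.d g g' := by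
  have := h (g⁻¹ * g')
  rw [map_mul, map_inv, one_mul] at this
  exact this

theorem PN_d (N : ℕ) (h h' : ℕ → FreeGroup α) :
    (FG (ℕ × α)).pm.d (PN N h) (PN N h') ≤ ∑ k ∈ Finset.range N, (FG α).pm.d (h k) (h' k) := by
  induction N with
  | zero => simp [PN_zero, PM.self]
  | succ N ih =>
    rw [PN_succ, PN_succ, Finset.sum_range_succ]
    refine (BI.d_mul_le _ _ _ _ _).trans ?_
    have := hom_d (inc N) (inc_nrm N) (h N) (h' N)
    omega

theorem P_d (g g' : FreeGroup (ℕ × α)) :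
    (FG (ℕ × α)).pm.d (P g) (P g') ≤ (FG (ℕ × α)).pm.d g g' := by
  obtain ⟨N, hN⟩ := exists_bound g
  obtain ⟨M, hM⟩ := exists_bound g'
  rw [P_eq g (N + M) (fun j hj => hN j (by omega)), P_eq g' (N + M) (fun j hj => hM j (by omega))]
  refine (PN_d _ _ _).trans ?_
  have := sum_nrm_le (N + M) (g⁻¹ * g')
  rw [one_mul] at this
  refine le_trans (le_of_eq ?_) this
  apply Finset.sum_congr rfl
  intro k _
  rw [map_mul, map_inv]
  rfl

/-- The swindle. -/
theorem swindle : QE ((FG α).pm.prod (FG (ℕ × α)).pm) (FG (ℕ × α)).pm := by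
  refine ⟨fun p => p.2 * (P p.2)⁻¹ * (inc 0 p.1 * sh (P p.2)),
    fun g => (pr 0 g, g * (P g)⁻¹ * bsh (P g)), 4, ?_, ?_, ?_, ?_⟩
  · rintro ⟨h, g⟩ ⟨h', g'⟩
    simp only [PM.prod]
    have e1 := (FG (ℕ × α)).d_mul_le (g * (P g)⁻¹) (inc 0 h * sh (P g)) (g' * (P g')⁻¹)
      (inc 0 h' * sh (P g'))
    have e2 := (FG (ℕ × α)).d_mul_le g (P g)⁻¹ g' (P g')⁻¹
    have e3 := (FG (ℕ × α)).d_mul_le (inc 0 h) (sh (P g)) (inc 0 h') (sh (P g'))
    rw [BI.d_inv] at e2
    have e4 := P_d g g'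
    have e5 := hom_d sh sh_nrm (P g) (P g')
    have e6 := hom_d (inc 0) (inc_nrm 0) h h'
    omega
  · intro g g'
    simp only [PM.prod]
    have e1 := (FG (ℕ × α)).d_mul_le (g * (P g)⁻¹) (bsh (P g)) (g' * (P g')⁻¹) (bsh (P g'))
    have e2 := (FG (ℕ × α)).d_mul_le g (P g)⁻¹ g' (P g')⁻¹
    rw [BI.d_inv] at e2
    have e4 := P_d g g'
    have e5 := hom_d bsh bsh_nrm (P g) (P g')
    have e6 := hom_d (pr 0) (pr_nrm 0) g g'
    omega
  · rintro ⟨h, g⟩
    have h0 : pr 0 (g * (P g)⁻¹ * (inc 0 h * sh (P g))) = h := by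
      rw [map_mul, map_mul, map_inv, pr_P, mul_inv_cancel, one_mul, map_mul, pr_inc_same,
        pr_zero_sh, mul_one]
    have h1 : ∀ j, pr (j + 1) (g * (P g)⁻¹ * (inc 0 h * sh (P g))) = pr j g := by
      intro j
      rw [map_mul, map_mul, map_inv, pr_P, mul_inv_cancel, one_mul, map_mul,
        pr_inc_ne (by omega), pr_succ_sh, one_mul, pr_P]
    have h2 := P_shift h g _ h0 h1
    have e : (pr 0 (g * (P g)⁻¹ * (inc 0 h * sh (P g))),
        g * (P g)⁻¹ * (inc 0 h * sh (P g)) * (P (g * (P g)⁻¹ * (inc 0 h * sh (P g))))⁻¹ *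
          bsh (P (g * (P g)⁻¹ * (inc 0 h * sh (P g))))) = (h, g) := by
      rw [h2, h0, map_mul, bsh_inc_zero, bsh_sh]
      congr 1
      group
    show ((FG α).pm.prod (FG (ℕ × α)).pm).d (pr 0 (g * (P g)⁻¹ * (inc 0 h * sh (P g))),
        g * (P g)⁻¹ * (inc 0 h * sh (P g)) * (P (g * (P g)⁻¹ * (inc 0 h * sh (P g))))⁻¹ *
          bsh (P (g * (P g)⁻¹ * (inc 0 h * sh (P g))))) (h, g) ≤ 4
    rw [e, PM.self]
    omega
  · intro g
    have h1 : ∀ j, pr j (g * (P g)⁻¹ * bsh (P g)) = pr (j + 1) g := by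
      intro j
      rw [map_mul, map_mul, map_inv, pr_P, mul_inv_cancel, one_mul, pr_bsh, pr_P]
    have h2 : P g = inc 0 (pr 0 g) * sh (P (g * (P g)⁻¹ * bsh (P g))) :=
      P_shift _ _ _ rfl (fun j => (h1 j).symm)
    have h3 : P (g * (P g)⁻¹ * bsh (P g)) = bsh (P g) := by
      have := congrArg bsh h2
      rw [map_mul, bsh_inc_zero, bsh_sh, one_mul] at this
      exact this.symm
    have h4 : P g = inc 0 (pr 0 g) * sh (bsh (P g)) := by
      rw [h3] at h2
      exact h2
    show (FG (ℕ × α)).pm.d (g * (P g)⁻¹ * bsh (P g) * (P (g * (P g)⁻¹ * bsh (P g)))⁻¹ *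
      (inc 0 (pr 0 g) * sh (P (g * (P g)⁻¹ * bsh (P g))))) g ≤ 4
    rw [h3, ← h4]
    have e : g * (P g)⁻¹ * bsh (P g) * (bsh (P g))⁻¹ * P g = g := by group
    rw [e, PM.self]
    omega

end Pool.Agent.Helper78_FG
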