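import Mathlib
import Pool.Agent.Helper78_FG.Norm
import Pool.Agent.Helper78_FG.Swindle
import Pool.Agent.Helper78_FG.Rolli

set_option autoImplicit false

/-!
All free groups of countable rank at least two, with their conjugation invariant word metrics, are
quasi-isometric to each other (a decomposition argument in the style of Pelczynski).
-/

namespace Pool.Agent.Helper78_FG

variable {α : Type}

/-- `F_ℕ` absorbs `F_α` for `α` countable and nonempty. -/
theorem absorb [Countable α] [Nonempty α] : QE ((FG α).pm.prod (FG ℕ).pm) (FG ℕ).pm := by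
  have e : Nonempty (ℕ × α ≃ ℕ) := nonempty_equiv_of_countable
  obtain ⟨e⟩ := e
  have h1 : QE (FG (ℕ × α)).pm (FG ℕ).pm := QE.of_equiv e
  exact ((QE.refl _).prod h1.symm).trans (swindle.trans h1)

/-- The main theorem: `F_α` is quasi-isometric to `F_ℕ`. -/
theorem main [Countable α] [Nontrivial α] : QE (FG α).pm (FG ℕ).pm := by
  classical
  obtain ⟨a, b, hab⟩ := exists_pair_ne α
  obtain ⟨s, hs⟩ := split_free a b hab
  -- `F_ℕ ~ F_α × F_ℕ ~ (F_ℕ × B) × F_ℕ ~ F_ℕ × (B × F_ℕ) ~ F_ℕ × (F_ℕ × B) ~ (F_ℕ × F_ℕ) × B ~ F_ℕ × B ~ F_α`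
  have h1 : QE (FG ℕ).pm ((FG α).pm.prod (FG ℕ).pm) := absorb.symm
  have h2 : QE ((FG α).pm.prod (FG ℕ).pm)
      (((FG ℕ).pm.prod ((FG α).pm.sub s)).prod (FG ℕ).pm) := hs.prod (QE.refl _)
  have h3 := QE.prod_assoc (FG ℕ).pm ((FG α).pm.sub s) (FG ℕ).pm
  have h4 : QE ((FG ℕ).pm.prod (((FG α).pm.sub s).prod (FG ℕ).pm))
      ((FG ℕ).pm.prod ((FG ℕ).pm.prod ((FG α).pm.sub s))) :=
    (QE.refl _).prod (QE.prod_comm _ _)
  have h5 := (QE.prod_assoc (FG ℕ).pm (FG ℕ).pm ((FG α).pm.sub s)).symm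
  have h6 : QE (((FG ℕ).pm.prod (FG ℕ).pm).prod ((FG α).pm.sub s))
      ((FG ℕ).pm.prod ((FG α).pm.sub s)) := absorb.prod (QE.refl _)
  exact ((((((h1.trans h2).trans h3).trans h4).trans h5).trans h6).trans hs.symm).symm

/-- Unpacking of `QE` into the usual definition of a quasi-isometry. -/
theorem QE.unpack {X Y : Type} {A : PM X} {B : PM Y} (h : QE A B) :
    ∃ (f : X → Y) (K C : ℝ), 0 < K ∧ 0 ≤ C ∧
      (∀ x y, (A.d x y : ℝ) / K - C ≤ (B.d (f x) (f y) : ℝ) ∧
        (B.d (f x) (f y) : ℝ) ≤ K * (A.d x y : ℝ) + C) ∧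
      ∀ z, ∃ x, (B.d (f x) z : ℝ) ≤ C := by
  obtain ⟨f, g, L, h1, h2, h3, h4⟩ := h
  refine ⟨f, L + 1, 3 * L, by positivity, by positivity, ?_, ?_⟩
  · intro x y
    constructor
    · have e1 := A.tri x (g (f x)) y
      have e2 := A.tri (g (f x)) (g (f y)) y
      have e3 := h3 x
      have e4 := h3 y
      rw [A.symm] at e3
      have e5 := h2 (f x) (f y)
      have e6 : A.d x y ≤ L * B.d (f x) (f y) + 3 * L := by omega
      have e7 : (A.d x y : ℝ) ≤ L * B.d (f x) (f y) + 3 * L := by exact_mod_cast e6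
      have hL : (0 : ℝ) ≤ L := by positivity
      have hB : (0 : ℝ) ≤ B.d (f x) (f y) := by positivity
      rw [sub_le_iff_le_add, div_le_iff₀ (by positivity)]
      nlinarith
    · have e1 := h1 x y
      have e2 : (B.d (f x) (f y) : ℝ) ≤ L * A.d x y + L := by exact_mod_cast e1
      have hL : (0 : ℝ) ≤ L := by positivity
      have hB : (0 : ℝ) ≤ A.d x y := by positivity
      nlinarith
  · intro z
    refine ⟨g z, ?_⟩
    have e1 := h4 z
    have e2 : (B.d (f (g z)) z : ℝ) ≤ L := by exact_mod_cast e1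
    have hL : (0 : ℝ) ≤ L := by positivity
    linarith

end Pool.Agent.Helper78_FG
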